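import Mathlib
import Pool.Agent.H.MP_9a581e_an.C

set_option autoImplicit false

namespace Pool.Agent.Results.MP_9a581e_an.No

open MeasureTheory Filter Topology Equiv Pool.Agent.H.MP_9a581e_an

lemma f1 : ∀ σ : Perm (Fin 4), (∀ i j, sd (σ i) = sd (σ j) ↔ sd i = sd j) → ∀ s : Fin 2,
    sd (σ (cl s.rev 0)) = (sd (σ (cl s 0))).rev ∧ ∃ τ : Perm (Fin 3), τ 2 = 2 ∧
      ∀ o, o ≠ 2 → τ o ≠ 2 ∧ σ (cl s o) = cl (sd (σ (cl s 0))) (τ o) := by decide +kernel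

lemma f2 : ∀ (σ : Fin 2 → Perm (Fin 3)) (t : Fin 2 → Fin 2), (∀ s, σ s 2 = 2) →
    (∀ s, t s.rev = (t s).rev) → ∃ ρ : Perm (Fin 4), (∀ i j, sd (ρ i) = sd (ρ j) ↔ sd i = sd j) ∧
      ∀ s, sd (ρ (cl s 0)) = t s ∧ ∀ o, o ≠ 2 → σ s o ≠ 2 ∧ ρ (cl s o) = cl (t s) (σ s o) := by
  decide +kernel

lemma iso {c : Sym2 W → Fin 4} (hc : ∀ v i, c s(v, X4.nb v i) = i)
    {b : Sym2 (W × Fin 2) → Fin 3} (hb : ∀ v i, b s(v, X3.nb v i) = i) :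
    Nonempty (U X4.T c F4 ≃ₜ* U X3.T b F3) := by
  let φ : U X4.T c F4 → W × Fin 2 → W × Fin 2 := fun g x =>
    (g.1 x.1, sd (c s(g.1 x.1, g.1 (wn x.1 (cl x.2 0)))))
  have h1 : ∀ g : U X4.T c F4, ∀ v, ∃ σ ∈ F4, ∀ i, g.1 (wn v i) = wn (g.1 v) (σ i) :=
    fun g => (memU hc).1 g.2
  have h2 : ∀ (g : U X4.T c F4) v (σ : Perm (Fin 4)), (∀ i, g.1 (wn v i) = wn (g.1 v) (σ i)) →
      ∀ s, φ g (v, s) = (g.1 v, sd (σ (cl s 0))) := fun g v σ h s =>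
    Prod.ext rfl (congrArg sd (by simp only [h]; exact hc _ _))
  have h3 : ∀ g h x, φ (g * h) x = φ g (φ h x) := fun g h ⟨v, s⟩ => by
    obtain ⟨τ, -, t2⟩ := h1 h v
    obtain ⟨σ, s1, s2⟩ := h1 g (h.1 v)
    rw [h2 h v τ t2, h2 g _ σ s2, h2 (g * h) v (σ * τ) fun i => (congrArg g.1 (t2 i)).trans (s2 _)]
    exact Prod.ext rfl ((s1 _ _).2 ((by decide : ∀ a, sd a = sd (cl (sd a) 0)) _))
  have h4 : ∀ x, φ 1 x = x := fun ⟨v, s⟩ => by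
    rw [h2 1 v 1 fun _ => rfl]
    exact Prod.ext rfl ((by decide : ∀ s, sd (cl s 0) = s) s)
  let Φ : U X4.T c F4 → U X3.T b F3 := fun g => ⟨⟨φ g, φ g⁻¹, fun x => by
    rw [← h3, inv_mul_cancel, h4], fun x => by rw [← h3, mul_inv_cancel, h4]⟩,
    (memU hb).2 fun ⟨v, s⟩ => by
      obtain ⟨σ, s1, s2⟩ := h1 g v
      obtain ⟨e, τ, t1, t2⟩ := f1 σ s1 s
      refine ⟨τ, t1, fun o => ?_⟩
      show φ g (n3 _ o) = n3 (φ g _) _
      rw [h2 g v σ s2]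
      by_cases ho : o = 2
      · simp only [n3, ho, t1, if_true, h2 g v σ s2, e]
      · obtain ⟨ρ, r1, r2⟩ := h1 g (wn v (cl s o))
        have e2 : ρ (cl s o) = σ (cl s o) := X4.inj (g.1 (wn v (cl s o))) _ _ (by
          refine (r2 _).symm.trans ((congrArg g.1 (X4.inv v _)).trans ?_)
          rw [s2]; exact (X4.inv _ _).symm)
        have e3 := (by decide : ∀ s o, sd (cl s 0) = sd (cl s o)) s o
        simp only [n3, ho, (t2 o ho).1, if_false, h2 g _ ρ r2, s2, ← (t2 o ho).2]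
        rw [(r1 _ _).2 e3, e2, (s1 _ _).2 e3]⟩
  have k1 : ∀ h : U X3.T b F3, ∀ x, ∃ σ : Perm (Fin 3), σ 2 = 2 ∧
    ∀ o, h.1 (n3 x o) = n3 (h.1 x) (σ o) := fun h => (memU hb).1 h.2
  have k2 : ∀ (h : U X3.T b F3) v s, h.1 (v, Fin.rev s) = ((h.1 (v, s)).1, (h.1 (v, s)).2.rev) :=
    fun h v s => by
      obtain ⟨σ, s1, s2⟩ := k1 h (v, s)
      simpa [n3, s1] using s2 2
  have k3 : ∀ (h : U X3.T b F3) v s, (h.1 (v, 0)).1 = (h.1 (v, s)).1 := fun h v s => by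
    fin_cases s
    exacts [rfl, (congrArg Prod.fst (k2 h v 0)).symm]
  have k4 : ∀ (h : U X3.T b F3) v, ∃ ρ ∈ F4, (∀ i, (h.1 (wn v i, 0)).1 =
      wn (h.1 (v, 0)).1 (ρ i)) ∧ ∀ s, sd (ρ (cl s 0)) = (h.1 (v, s)).2 := fun h v => by
    choose σ s1 s2 using fun s => k1 h (v, s)
    obtain ⟨ρ, r1, r2⟩ := f2 σ (fun s => (h.1 (v, s)).2) s1 fun s => by rw [k2]
    refine ⟨ρ, r1, fun i => ?_, fun s => (r2 s).1⟩
    obtain ⟨s, o, ho, rfl⟩ := (by decide : ∀ i, ∃ s o, o ≠ 2 ∧ cl s o = i) i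
    have := congrArg Prod.fst (s2 s o)
    simp only [n3, ho, ((r2 s).2 o ho).1, if_false] at this
    rw [k3 h _ s, this, k3 h v s, ((r2 s).2 o ho).2]
  let Ψ : U X3.T b F3 → U X4.T c F4 := fun h => ⟨⟨fun v => (h.1 (v, 0)).1,
    fun v => (h⁻¹.1 (v, 0)).1, fun v => (k3 h⁻¹ _ (h.1 (v, 0)).2).trans (by simp),
    fun v => (k3 h _ (h⁻¹.1 (v, 0)).2).trans (by simp)⟩,
    (memU hc).2 fun v => (k4 h v).imp fun _ r => ⟨r.1, r.2.1⟩⟩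
  refine ⟨{ toFun := Φ
            invFun := Ψ
            left_inv := fun g => rfl
            right_inv := fun h => Subtype.ext (Equiv.ext fun ⟨v, s⟩ => ?_)
            map_mul' := fun g h => Subtype.ext (Equiv.ext (h3 g h))
            continuous_toFun := continuous_iff_continuousAt.2 fun g => tendU.2 fun x => ?_
            continuous_invFun := continuous_iff_continuousAt.2 fun h => tendU.2 fun v => ?_ }⟩
  · obtain ⟨ρ, -, r2, r3⟩ := k4 h v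
    exact (h2 (Ψ h) v ρ r2 s).trans (Prod.ext (k3 h v s) (r3 s))
  · filter_upwards [evU g x.1, evU g (wn x.1 (cl x.2 0))] with h e1 e2
    show φ h x = φ g x
    simp only [φ, e1, e2]
  · filter_upwards [evU h (v, 0)] with g e
    exact congrArg Prod.fst e

theorem result : ∃ (V₁ V₂ : Type) (T₁ : SimpleGraph V₁) (T₂ : SimpleGraph V₂)
    (c₁ : Sym2 V₁ → Fin 3) (c₂ : Sym2 V₂ → Fin 4)
    (F₁ : Subgroup (Perm (Fin 3))) (F₂ : Subgroup (Perm (Fin 4))),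
    T₁.IsTree ∧ Legal T₁ c₁ ∧ T₂.IsTree ∧ Legal T₂ c₂ ∧
    ¬ DiscreteTopology (U T₁ c₁ F₁) ∧ ¬ DiscreteTopology (U T₂ c₂ F₂) ∧
    Nonempty (U T₁ c₁ F₁ ≃ₜ* U T₂ c₂ F₂) ∧
    ∃ (μ₁ : Measure (U T₁ c₁ F₁)) (μ₂ : Measure (U T₂ c₂ F₂))
      (_ : μ₁.IsHaarMeasure) (_ : μ₂.IsHaarMeasure), CrIso μ₁ μ₂ := by
  obtain ⟨c, hc⟩ := X4.col
  obtain ⟨b, hb⟩ := X3.col
  obtain ⟨e⟩ := iso hc hb
  have := lc (F := F3) hb
  exact ⟨_, _, _, _, b, c, F3, F4, X3.tree, legal hb, X4.tree, legal hc,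
    fun _ => nondisc hc e.toHomeomorph.isEmbedding.discreteTopology, nondisc hc, ⟨e.symm⟩,
    Measure.haar, Measure.haar.map e.symm, inferInstance, e.symm.isHaarMeasure_map _,
    cr_iso _ _ e.symm ⟨e.symm.continuous.measurable, rfl⟩⟩

end Pool.Agent.Results.MP_9a581e_an.No
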